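import Pool.Agent.L0h82.CH.Defs

/-! # Project CH: positive part of the theorem -/

set_option autoImplicit false

open Cardinal Set

namespace Pool.Agent.L0h82.CH

universe u

open Classical in
/-- the partial map determined by `g` -/
noncomputable def hatf {ι X : Type u} [LinearOrder X] (g : ι → X × X) (x : X) : Option X :=
  if h : ∃! y, Rel g x y then some h.choose else none

theorem hatf_eq {ι X : Type u} [LinearOrder X] (g : ι → X × X) (x y₀ : X)
    (h : ∀ y, Rel g x y ↔ y = y₀) : hatf g x = some y₀ := by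
  have h1 : ∃! y, Rel g x y := ⟨y₀, (h y₀).2 rfl, fun y hy => (h y).1 hy⟩
  unfold hatf
  rw [dif_pos h1]
  congr 1
  exact (h _).1 h1.choose_spec.1

theorem s_POS (hEXT : S_EXT.{u}) (hDIAG : S_DIAG.{u}) (hLEX : S_LEX.{u}) : S_POS.{u} := by
  intro l hl hl2
  obtain ⟨X, inst, D, hX, hD, hsep⟩ := hLEX l hl hl2
  have hι : #(l.out) = l := Cardinal.mk_out l
  have hXinf : ℵ₀ ≤ #X := by
    rw [hX]
    exact hl.trans (Cardinal.cantor l).le
  have hΦ : #(l.out → X × X) ≤ #X := by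
    have h1 : #(l.out → X × X) = (#X * #X) ^ l := by
      simp [hι]
    rw [h1, Cardinal.mul_eq_self hXinf, hX, ← Cardinal.power_mul, Cardinal.mul_eq_self hl]
  obtain ⟨C, hC, hdiag⟩ := hDIAG X (l.out → X × X) hatf hXinf hΦ
  have hreg : ℵ₀ ≤ (#X).ord.cof := by
    rw [Ordinal.aleph0_le_cof_iff, Ordinal.one_lt_cof_iff]
    exact Cardinal.isSuccLimit_ord hXinf
  refine ⟨C, inferInstance, by rw [hC, hX], by rw [hC]; exact hreg, fun S f hf => ?_⟩
  rcases S.eq_empty_or_nonempty with hS | hS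
  · have h1 : {x : C | x ∈ S ∧ f x ≠ x} = ∅ := by
      rw [hS]
      ext x
      simp
    rw [h1, Cardinal.mk_eq_zero, hC]
    exact Cardinal.aleph0_pos.trans_le hreg
  · classical
    set f' : X → X := fun x => if h : x ∈ C then (f ⟨x, h⟩ : X) else x with hf'
    set S' : Set X := Subtype.val '' S with hS'
    have hfe : ∀ x : C, f' x = f x := fun x => by rw [hf']; simp
    have hmono : StrictMonoOn f' S' := by
      rintro _ ⟨x, hx, rfl⟩ _ ⟨y, hy, rfl⟩ hxy
      rw [hfe, hfe]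
      exact hf hx hy hxy
    have hS'n : S'.Nonempty := hS.image _
    have hinj : InjOn f' S' := hmono.injOn
    obtain ⟨g, hg⟩ := hEXT X l.out D (by rw [hι]; exact hl) (by rw [hι]; exact hD) hsep S' f' hS'n
      hmono
    have : Nonempty X := ⟨hS'n.some⟩
    have hmono2 : StrictMonoOn (Function.invFunOn f' S') (f' '' S') := by
      rintro _ ⟨x, hx, rfl⟩ _ ⟨y, hy, rfl⟩ hxy
      rw [hinj.leftInvOn_invFunOn hx, hinj.leftInvOn_invFunOn hy]
      exact (hmono.lt_iff_lt hx hy).1 hxy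
    obtain ⟨g', hg'⟩ := hEXT X l.out D (by rw [hι]; exact hl) (by rw [hι]; exact hD) hsep
      (f' '' S') (Function.invFunOn f' S') (hS'n.image _) hmono2
    rw [hC]
    refine lt_of_le_of_lt ?_ (hdiag g g')
    refine Cardinal.mk_le_of_injective (f := fun x : {x : C | x ∈ S ∧ f x ≠ x} =>
      (⟨x.1.1, x.1.2, (f x.1 : X), (f x.1).2, fun h => x.2.2 (Subtype.ext h), ?_, ?_⟩ :
        {x : X | x ∈ C ∧ ∃ y ∈ C, y ≠ x ∧ hatf g x = some y ∧ hatf g' y = some x})) ?_
    · have h1 := hatf_eq g (x.1 : X) (f' x.1) (hg _ ⟨x.1, x.2.1, rfl⟩)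
      rw [h1, hfe]
    · have h2 : f' x.1 ∈ f' '' S' := ⟨_, ⟨x.1, x.2.1, rfl⟩, rfl⟩
      have h1 := hatf_eq g' (f' x.1) (Function.invFunOn f' S' (f' x.1)) (hg' _ h2)
      rw [hinj.leftInvOn_invFunOn ⟨x.1, x.2.1, rfl⟩, hfe] at h1
      exact h1
    · intro x y hxy
      have h1 := congrArg Subtype.val hxy
      exact Subtype.ext (Subtype.ext h1)

end Pool.Agent.L0h82.CH
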